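import Pool.Agent.H241.DF.TwoThirds

/-!
# Direct factors of cyclic groups which contain more than two thirds of an interval of their length,
or an interval of more than half their length
-/

set_option autoImplicit false

namespace Pool.Agent.Results.MP_3587fb_co.TwoThirds

open Finset Pool.Agent.H241.DF

theorem result (ω n : ℕ) (hω : 0 < ω) (A B : Finset (ZMod ω)) (hAB : IsFactorization A B)
    (hn : A.card = n) (x : ZMod ω) :
    (2 * n < 3 * (A ∩ win x n).card → n ∣ ω ∧ CompleteResidues n A ∧ IsCoset n B) ∧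
    (∀ s : ℕ, n + 1 ≤ 2 * s → (∀ i < s, x + (i : ZMod ω) ∈ A) →
      n ∣ ω ∧ CompleteResidues n A ∧ IsCoset n B) ∧
    (∀ s : ℕ, 1 ≤ s → (∀ i < s, x + (i : ZMod ω) ∈ A) →
      (∀ d : ℕ, 1 ≤ d → d + s ≤ n → ∃ a ∈ A, ∃ a' ∈ A, a = a' + (d : ZMod ω)) →
      n ∣ ω ∧ CompleteResidues n A ∧ IsCoset n B) := by
  have : NeZero ω := ⟨hω.ne'⟩
  subst hn
  refine ⟨fun h => ?_, fun s hs hrun => ?_, fun s hs hrun hdiff => half hAB x s hs hrun hdiff⟩
  · apply main2 hAB x
    have h1 : A ∩ win x A.card = (TT A x).image fun t : ℕ => x + (t : ZMod ω) := by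
      ext y
      simp only [win, TT, mem_inter, mem_image, mem_filter]
      constructor
      · rintro ⟨hy, t, ht, rfl⟩
        exact ⟨t, ⟨ht, hy⟩, rfl⟩
      · rintro ⟨t, ⟨ht, hy⟩, rfl⟩
        exact ⟨hy, t, ht, rfl⟩
    rwa [h1, card_image hAB x] at h
  · refine half hAB x s (by omega) hrun fun d hd1 hd2 => ?_
    refine ⟨x + (d : ZMod ω), hrun d (by omega), x, ?_, rfl⟩
    have := hrun 0 (by omega)
    simpa using this

end Pool.Agent.Results.MP_3587fb_co.TwoThirds
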